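import Mathlib

/-!
# A Lipschitz homeomorphism of a nonseparable Hilbert space, nowhere Gateaux differentiable
-/

namespace Pool.Agent.Results.MP_714461_an.NowhereGateaux

open Filter Topology

universe u v

/-- `φ` is Gateaux differentiable at `x₀`. -/
def GateauxDiffAt {X Y : Type*} [NormedAddCommGroup X] [NormedSpace ℝ X]
    [NormedAddCommGroup Y] [NormedSpace ℝ Y] (φ : X → Y) (x₀ : X) : Prop :=
  ∃ T : X →L[ℝ] Y, ∀ h : X,
    Tendsto (fun t : ℝ => t⁻¹ • (φ (x₀ + t • h) - φ x₀)) (𝓝[≠] 0) (𝓝 (T h))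

/-- Reflexivity: the canonical embedding in the bidual is onto. -/
def IsReflexive (X : Type*) [NormedAddCommGroup X] [NormedSpace ℝ X] : Prop :=
  Function.Surjective (NormedSpace.inclusionInDoubleDual ℝ X)

/-- `Z` is finitely representable in `X`. -/
def FinRep (Z : Type u) (X : Type v) [NormedAddCommGroup Z] [NormedSpace ℝ Z]
    [NormedAddCommGroup X] [NormedSpace ℝ X] : Prop :=
  ∀ ε : ℝ, 0 < ε → ∀ E : Submodule ℝ Z, FiniteDimensional ℝ E →
    ∃ T : E →ₗ[ℝ] X, ∀ x : E, ‖x‖ ≤ ‖T x‖ ∧ ‖T x‖ ≤ (1 + ε) * ‖x‖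

/-- Superreflexivity: every Banach space finitely representable in `X` is reflexive. -/
def Superreflexive (X : Type v) [NormedAddCommGroup X] [NormedSpace ℝ X] : Prop :=
  ∀ (Z : Type u) [NormedAddCommGroup Z] [NormedSpace ℝ Z] [CompleteSpace Z],
    FinRep Z X → IsReflexive Z

/-! ### Hilbert spaces are superreflexive -/

lemma isReflexive_of_inner (X : Type*) [NormedAddCommGroup X] [InnerProductSpace ℝ X]
    [CompleteSpace X] : IsReflexive X := by
  intro f
  -- `g x = f (toDual x)`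
  let g : StrongDual ℝ X := LinearMap.mkContinuous
    { toFun := fun x => f (InnerProductSpace.toDual ℝ X x)
      map_add' := fun x y => by simp
      map_smul' := fun a x => by simp } ‖f‖ (fun x => by
        have := f.le_opNorm (InnerProductSpace.toDual ℝ X x)
        simpa using this)
  obtain ⟨y, hy⟩ := (InnerProductSpace.toDual ℝ X).surjective g
  refine ⟨y, ?_⟩
  ext ℓ
  obtain ⟨x, rfl⟩ := (InnerProductSpace.toDual ℝ X).surjective ℓ
  have h1 : g x = f (InnerProductSpace.toDual ℝ X x) := rfl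
  rw [← h1, ← hy]
  simp [NormedSpace.dual_def, real_inner_comm]

lemma superreflexive_of_inner (X : Type v) [NormedAddCommGroup X] [InnerProductSpace ℝ X] :
    Superreflexive.{u} X := by
  intro Z _ _ _ hZ
  have key : ∀ x y : Z, ∀ ε : ℝ, 0 < ε →
      ‖x + y‖ ^ 2 + ‖x - y‖ ^ 2 ≤ (1 + ε) ^ 2 * (2 * (‖x‖ ^ 2 + ‖y‖ ^ 2)) ∧
      2 * (‖x‖ ^ 2 + ‖y‖ ^ 2) ≤ (1 + ε) ^ 2 * (‖x + y‖ ^ 2 + ‖x - y‖ ^ 2) := by
    intro x y ε hε
    let E : Submodule ℝ Z := Submodule.span ℝ {x, y}
    have hfin : FiniteDimensional ℝ E :=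
      FiniteDimensional.span_of_finite ℝ (Set.toFinite {x, y})
    obtain ⟨T, hT⟩ := hZ ε hε E hfin
    have hx : x ∈ E := Submodule.subset_span (by simp)
    have hy : y ∈ E := Submodule.subset_span (by simp)
    let x' : E := ⟨x, hx⟩
    let y' : E := ⟨y, hy⟩
    have e1 := parallelogram_law_with_norm ℝ (T x') (T y')
    have e2 : T x' + T y' = T (x' + y') := (map_add T x' y').symm
    have e3 : T x' - T y' = T (x' - y') := (map_sub T x' y').symm
    rw [e2, e3] at e1
    have n1 : ‖x' + y'‖ = ‖x + y‖ := rfl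
    have n2 : ‖x' - y'‖ = ‖x - y‖ := rfl
    have n3 : ‖x'‖ = ‖x‖ := rfl
    have n4 : ‖y'‖ = ‖y‖ := rfl
    have a1 := hT (x' + y')
    have a2 := hT (x' - y')
    have a3 := hT x'
    have a4 := hT y'
    rw [n1] at a1
    rw [n2] at a2
    rw [n3] at a3
    rw [n4] at a4
    have p1 := norm_nonneg (x + y)
    have p2 := norm_nonneg (x - y)
    have p3 := norm_nonneg x
    have p4 := norm_nonneg y
    have sq : ∀ a b : ℝ, 0 ≤ a → a ≤ b → a ^ 2 ≤ b ^ 2 := fun a b h0 h =>
      pow_le_pow_left₀ h0 h 2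
    have b1 := sq _ _ p1 a1.1
    have b2 := sq _ _ p2 a2.1
    have b3 := sq _ _ p3 a3.1
    have b4 := sq _ _ p4 a4.1
    have c1 := sq _ _ (norm_nonneg _) a1.2
    have c2 := sq _ _ (norm_nonneg _) a2.2
    have c3 := sq _ _ (norm_nonneg _) a3.2
    have c4 := sq _ _ (norm_nonneg _) a4.2
    rw [mul_pow] at c1 c2 c3 c4
    constructor
    · nlinarith
    · nlinarith
  have lim : ∀ a b : ℝ, (∀ ε : ℝ, 0 < ε → a ≤ (1 + ε) ^ 2 * b) → a ≤ b := by
    intro a b h
    have ht : Tendsto (fun ε : ℝ => (1 + ε) ^ 2 * b) (𝓝[>] 0) (𝓝 ((1 + 0) ^ 2 * b)) := by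
      apply tendsto_nhdsWithin_of_tendsto_nhds
      exact (Continuous.tendsto (by fun_prop) 0)
    have h2 : a ≤ (1 + 0) ^ 2 * b :=
      ge_of_tendsto ht (by
        filter_upwards [self_mem_nhdsWithin] with ε hε using h ε hε)
    simpa using h2
  have par : ∀ x y : Z, ‖x + y‖ * ‖x + y‖ + ‖x - y‖ * ‖x - y‖
      = 2 * (‖x‖ * ‖x‖ + ‖y‖ * ‖y‖) := by
    intro x y
    have h1 := lim _ _ (fun ε hε => (key x y ε hε).1)
    have h2 := lim _ _ (fun ε hε => (key x y ε hε).2)
    nlinarith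
  let _ : InnerProductSpace ℝ Z := InnerProductSpace.ofNorm ℝ par
  exact isReflexive_of_inner Z

/-! ### The space and the map -/

/-- The real Hilbert space with an orthonormal basis indexed by the real numbers. -/
abbrev H : Type := lp (fun _ : ℝ => ℝ) 2

lemma norm_le_of_coord {x y : H} (h : ∀ i, ‖x i‖ ≤ ‖y i‖) : ‖x‖ ≤ ‖y‖ := by
  have h0 : (0 : ℝ) < (2 : ENNReal).toReal := by norm_num
  have hx := lp.norm_rpow_eq_tsum h0 x
  have hy := lp.norm_rpow_eq_tsum h0 y
  have hle : ‖x‖ ^ (2 : ENNReal).toReal ≤ ‖y‖ ^ (2 : ENNReal).toReal := by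
    rw [hx, hy]
    refine Summable.tsum_le_tsum (fun i => ?_) ?_ ?_
    · exact Real.rpow_le_rpow (norm_nonneg _) (h i) h0.le
    · exact (lp.memℓp x).summable h0
    · exact (lp.memℓp y).summable h0
  exact (Real.rpow_le_rpow_iff (norm_nonneg _) (norm_nonneg _) h0).1 hle

/-- Coordinatewise absolute value. -/
noncomputable def absH (x : H) : H :=
  ⟨fun i => |x i|, (memℓp_gen_iff (by norm_num)).2 (by
    have hx := (memℓp_gen_iff (by norm_num)).1 (lp.memℓp x)
    simpa using hx)⟩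

@[simp] lemma absH_apply (x : H) (i : ℝ) : absH x i = |x i| := rfl

lemma absH_sub_le (x y : H) : ‖absH x - absH y‖ ≤ ‖x - y‖ := by
  apply norm_le_of_coord
  intro i
  simpa [Real.norm_eq_abs] using abs_abs_sub_abs_le_abs_sub (x i) (y i)

/-- The map `x ↦ x + ε |x|`. -/
noncomputable def phi (ε : ℝ) (h0 : 0 < ε) (h1 : ε < 1) : H ≃ H where
  toFun x := x + ε • absH x
  invFun y := (1 - ε ^ 2)⁻¹ • (y - ε • absH y)
  left_inv x := by
    have hne : (1 - ε ^ 2) ≠ 0 := by nlinarith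
    ext i
    have : |(x i + ε * (|x i|))| = |x i| + ε * x i := by
      rcases le_total 0 (x i) with h | h
      · rw [abs_of_nonneg h, abs_of_nonneg]
        positivity
      · rw [abs_of_nonpos h, abs_of_nonpos (by nlinarith)]
        ring
    simp only [lp.coeFn_smul, lp.coeFn_sub, lp.coeFn_add, Pi.smul_apply, Pi.sub_apply,
      Pi.add_apply, absH_apply, smul_eq_mul, this]
    field_simp
    ring
  right_inv y := by
    have hp : 0 < (1 - ε ^ 2) := by nlinarith
    have hne : (1 - ε ^ 2) ≠ 0 := hp.ne'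
    ext i
    have : |((1 - ε ^ 2)⁻¹ * (y i - ε * (|y i|)))| = (1 - ε ^ 2)⁻¹ * (|y i| - ε * y i) := by
      rw [abs_mul, abs_of_pos (inv_pos.2 hp)]
      congr 1
      rcases le_total 0 (y i) with h | h
      · rw [abs_of_nonneg h, abs_of_nonneg]
        nlinarith
      · rw [abs_of_nonpos h, abs_of_nonpos (by nlinarith)]
        ring
    simp only [lp.coeFn_smul, lp.coeFn_sub, lp.coeFn_add, Pi.smul_apply, Pi.sub_apply,
      Pi.add_apply, absH_apply, smul_eq_mul, this]
    field_simp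
    ring

lemma phi_apply (ε : ℝ) (h0 : 0 < ε) (h1 : ε < 1) (x : H) :
    phi ε h0 h1 x = x + ε • absH x := rfl

lemma phi_bilip (ε : ℝ) (h0 : 0 < ε) (h1 : ε < 1) (x y : H) :
    (1 - ε) * ‖x - y‖ ≤ ‖phi ε h0 h1 x - phi ε h0 h1 y‖ ∧
      ‖phi ε h0 h1 x - phi ε h0 h1 y‖ ≤ (1 + ε) * ‖x - y‖ := by
  have e : phi ε h0 h1 x - phi ε h0 h1 y = (x - y) + ε • (absH x - absH y) := by
    rw [phi_apply, phi_apply, smul_sub]; abel
  have hs : ‖ε • (absH x - absH y)‖ ≤ ε * ‖x - y‖ := by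
    rw [norm_smul, Real.norm_eq_abs, abs_of_pos h0]
    exact mul_le_mul_of_nonneg_left (absH_sub_le x y) h0.le
  rw [e]
  constructor
  · have := norm_sub_norm_le (x - y) (-(ε • (absH x - absH y)))
    rw [norm_neg, sub_neg_eq_add] at this
    linarith
  · have := norm_add_le (x - y) (ε • (absH x - absH y))
    linarith

lemma exists_coord_zero (x : H) : ∃ i, x i = 0 := by
  by_contra hcon
  push Not at hcon
  have hx := (lp.memℓp x).summable (by norm_num : (0 : ℝ) < (2 : ENNReal).toReal)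
  have hc := hx.countable_support
  have hu : Function.support (fun i => ‖x i‖ ^ (2 : ENNReal).toReal) = Set.univ := by
    ext i
    simp [hcon i]
  rw [hu] at hc
  exact Set.not_countable_univ hc

lemma phi_not_gateaux (ε : ℝ) (h0 : 0 < ε) (h1 : ε < 1) (x₀ : H) :
    ¬ GateauxDiffAt (phi ε h0 h1) x₀ := by
  rintro ⟨T, hT⟩
  obtain ⟨i, hi⟩ := exists_coord_zero x₀
  let e : H := lp.single 2 i (1 : ℝ)
  have he : e i = 1 := by simp [e]
  have h := hT e
  -- pass to the coordinate `i`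
  have hcont : Continuous (fun z : H => z i) := by
    have : Continuous (fun z : H => (lp.evalCLM ℝ (fun _ : ℝ => ℝ) 2 i) z) :=
      (lp.evalCLM ℝ (fun _ : ℝ => ℝ) 2 i).continuous
    exact this
  have h2 : Tendsto (fun t : ℝ => t⁻¹ * (t + ε * |t|)) (𝓝[≠] 0) (𝓝 ((T e) i)) := by
    have h3 := (hcont.tendsto (T e)).comp h
    refine h3.congr (fun t => ?_)
    simp [phi_apply, hi, he]
  have hr : Tendsto (fun t : ℝ => t⁻¹ * (t + ε * |t|)) (𝓝[>] 0) (𝓝 (1 + ε)) := by
    refine Tendsto.congr' ?_ tendsto_const_nhds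
    filter_upwards [self_mem_nhdsWithin] with t ht
    have ht' : (0 : ℝ) < t := ht
    rw [abs_of_pos ht']
    field_simp
  have hl : Tendsto (fun t : ℝ => t⁻¹ * (t + ε * |t|)) (𝓝[<] 0) (𝓝 (1 - ε)) := by
    refine Tendsto.congr' ?_ tendsto_const_nhds
    filter_upwards [self_mem_nhdsWithin] with t ht
    have ht' : t < (0 : ℝ) := ht
    have hne : t ≠ 0 := ht'.ne
    rw [abs_of_neg ht']
    field_simp
    ring
  have hr' := tendsto_nhds_unique hr (h2.mono_left (nhdsWithin_mono 0 (fun t ht => (ne_of_gt ht))))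
  have hl' := tendsto_nhds_unique hl (h2.mono_left (nhdsWithin_mono 0 (fun t ht => (ne_of_lt ht))))
  linarith

lemma not_separable : ¬ TopologicalSpace.SeparableSpace H := by
  intro hsep
  let e : ℝ → H := fun i => lp.single 2 i (1 : ℝ)
  have hd : ∀ i j, i ≠ j → 1 ≤ dist (e i) (e j) := by
    intro i j hij
    rw [dist_eq_norm]
    have h1 : ‖(e i - e j) i‖ ≤ ‖e i - e j‖ := lp.norm_apply_le_norm (by norm_num) _ i
    have h2 : (e i - e j) i = 1 := by
      simp [e, hij]
    rw [h2] at h1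
    simpa using h1
  have hdis : (Set.univ : Set ℝ).PairwiseDisjoint (fun i => Metric.ball (e i) (1 / 2)) := by
    intro i _ j _ hij
    apply Metric.ball_disjoint_ball
    have := hd i j hij
    linarith
  have hc := hdis.countable_of_isOpen (fun i _ => Metric.isOpen_ball)
    (fun i _ => ⟨e i, Metric.mem_ball_self (by norm_num)⟩)
  exact Set.not_countable_univ hc

/-- **Negative answer to Q2, hence also to Q1.**  There are nonseparable superreflexive (in
particular reflexive) real Banach spaces `X`, `Y` and, for every `0 < ε < 1`, a bijection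
`φ : X → Y` with `(1-ε)‖x-y‖ ≤ ‖φ x - φ y‖ ≤ (1+ε)‖x-y‖` which is Gateaux differentiable at no
point. -/
theorem result :
    ∃ (X Y : Type) (_ : NormedAddCommGroup X) (_ : NormedSpace ℝ X) (_ : CompleteSpace X)
      (_ : NormedAddCommGroup Y) (_ : NormedSpace ℝ Y) (_ : CompleteSpace Y),
      ¬ TopologicalSpace.SeparableSpace X ∧ ¬ TopologicalSpace.SeparableSpace Y ∧
      IsReflexive X ∧ IsReflexive Y ∧ Superreflexive.{u} X ∧ Superreflexive.{u} Y ∧
      ∀ ε : ℝ, 0 < ε → ε < 1 → ∃ φ : X ≃ Y,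
        (∀ x y : X, (1 - ε) * ‖x - y‖ ≤ ‖φ x - φ y‖ ∧ ‖φ x - φ y‖ ≤ (1 + ε) * ‖x - y‖) ∧
        ∀ x₀ : X, ¬ GateauxDiffAt φ x₀ :=
  ⟨H, H, inferInstance, inferInstance, inferInstance, inferInstance, inferInstance,
    inferInstance, not_separable, not_separable, isReflexive_of_inner H, isReflexive_of_inner H,
    superreflexive_of_inner H, superreflexive_of_inner H,
    fun ε h0 h1 => ⟨phi ε h0 h1, phi_bilip ε h0 h1, phi_not_gateaux ε h0 h1⟩⟩

end Pool.Agent.Results.MP_714461_an.NowhereGateaux
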